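import Mathlib
import Pool.Agent.H34R2.WglPF2
import Pool.Agent.H34R2.PSNec

/-!
# Rings whose power series ring has weak global dimension one

For an arbitrary (associative, unital) ring `A`, the weak global dimension of `A⟦X⟧` equals `1` if
and only if `A` is a nonzero von Neumann regular ring such that for every `n` and all sequences
`a i`, `b j` of `n × n` matrices over `A` with `a i * b j = 0` for all `i, j` there is a matrix `h`
with `a i * h = 0` and `h * b j = b j` for all `i, j`.

The homological definitions (`IsFlat`, `HasFlatRes`, `flatDim`, `wGlDim`) are in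
`Pool.Agent.H34R2.WglDefs`.
-/

set_option autoImplicit false

universe u

namespace Pool.Agent.Results.MP_d6aa4f_al.WglDimPowerSeries

open Pool.Agent.H34R2.Wgl Pool.Agent.H34R2.PS

theorem result (A : Type u) [Ring A] :
    wGlDim (PowerSeries A) = 1 ↔
      Nontrivial A ∧ (∀ a : A, ∃ x : A, a * x * a = a) ∧
        ∀ n : ℕ, ∀ a b : ℕ → Matrix (Fin n) (Fin n) A, (∀ i j, a i * b j = 0) →
          ∃ h : Matrix (Fin n) (Fin n) A, (∀ i, a i * h = 0) ∧ ∀ j, h * b j = b j := by
  have key : (∀ n, PFn (PowerSeries A) n) ↔ VNReg A ∧ ∀ n, Interp (Matrix (Fin n) (Fin n) A) :=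
    PFn_powerSeries_iff
  constructor
  · intro h
    refine ⟨?_, key.1 (wGlDim_le_one_iff.1 h.le)⟩
    by_contra hA
    rw [not_nontrivial_iff_subsingleton] at hA
    have : Subsingleton (PowerSeries A) := PowerSeries.subsingleton_iff.2 hA
    rw [wGlDim_eq_zero_of_subsingleton] at h
    exact zero_ne_one h
  · rintro ⟨hA, h⟩
    have hle : wGlDim (PowerSeries A) ≤ 1 := wGlDim_le_one_iff.2 (key.2 h)
    have hne : wGlDim (PowerSeries A) ≠ 0 := by
      intro h0
      obtain ⟨r, hr⟩ := vnreg_of_wGlDim_eq_zero h0 (PowerSeries.X : PowerSeries A)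
      have h1 := congrArg (PowerSeries.coeff 1) hr
      have h2 : PowerSeries.coeff 1 ((PowerSeries.X : PowerSeries A) * r * PowerSeries.X) =
          PowerSeries.coeff 0 ((PowerSeries.X : PowerSeries A) * r) :=
        PowerSeries.coeff_succ_mul_X 0 _
      rw [h2, PowerSeries.coeff_zero_X_mul, PowerSeries.coeff_one_X] at h1
      exact zero_ne_one h1
    exact le_antisymm hle (Order.one_le_iff_ne_zero.2 hne)

end Pool.Agent.Results.MP_d6aa4f_al.WglDimPowerSeries
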